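import Mathlib
import Pool.Agent.H525.EX.Stm8
import Pool.Agent.H231.EX.GD20

/-!
# GD30: the derivative at `1` of the weighted sum of all weights of the second kind
(helper972 for helper525; adapted from `H231/EX/GD20.lean`)
-/

set_option linter.all false

namespace Pool.Agent.H972.EX

open Polynomial UniqueFactorizationMonoid
open Pool.Agent.H985.Chow (mob)
open Pool.Agent.H525.QF
open Pool.Agent.H525.EX
open Pool.Agent.H627.EX (der_eval)
open Pool.Agent.H253.EX (arith2 arith2' cII_zero sum_pp)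
open Pool.Agent.H231.EX (quad_mon F2_mon cop_of_irr2)
open scoped Classical

section

variable {K : Type} [Field K] [Fintype K]

lemma p0_eq (ω : K → ℝ) (m : ℕ) :
    p0 ω m = ∑ v ∈ (cII K m).filter (fun v => Irreducible (F2 v)), ω (v.2.coeff (m - 1)) := by
  unfold p0 cII
  refine Finset.sum_congr ?_ fun _ _ => rfl
  ext v
  simp only [Finset.mem_filter]
  constructor
  · rintro ⟨h1, h2⟩
    exact ⟨⟨h1, cop_of_irr2 h2⟩, h2⟩
  · rintro ⟨⟨h1, _⟩, h2⟩
    exact ⟨h1, h2⟩

end

/-- **GD30**. -/
theorem t_gd30 : S_gd30 := by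
  intro hR hE hE2 hP K _ _ _ κ hκ h ρ σ hHR hHV hρ hσ ω n hn
  have step1 : ∑ k ∈ Finset.range (4 * n + 3), (k : ℝ) * G0 ω h n k =
      ∑ j ∈ Finset.range (n + 1), ∑ G ∈ mon K j, ∑ v ∈ cII K (n - j),
        ω (v.2.coeff (n - j - 1)) * (derivative (W h (G ^ 2 * F2 v))).eval 1 := by
    unfold G0
    simp only [Finset.mul_sum]
    rw [Finset.sum_comm]
    refine Finset.sum_congr rfl fun j hj => ?_
    rw [Finset.sum_comm]
    refine Finset.sum_congr rfl fun G hG => ?_
    rw [Finset.sum_comm]
    refine Finset.sum_congr rfl fun v hv => ?_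
    rw [der_eval _ (4 * n + 3) ?_]
    · rw [Finset.mul_sum]
      refine Finset.sum_congr rfl fun k _ => ?_
      ring
    unfold cII at hv
    rw [Finset.mem_filter, Finset.mem_product] at hv
    obtain ⟨⟨hv1, hv2⟩, hv3⟩ := hv
    have hF := F2_mon hv1 hv2
    have hsq := ((hP K κ hκ (n - j) v hv3).2 hv1 hv2).1
    rw [mem_mon] at hG
    have h1 := (hR K _ h hHR G (F2 v) hG.1 hF.1 hsq).1
    rw [hG.2, hF.2] at h1
    rw [Finset.mem_range] at hj
    omega
  have step2 : ∀ m j : ℕ, 1 ≤ m → m + j = n → ∑ G ∈ mon K j, ∑ v ∈ cII K m,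
        ω (v.2.coeff (m - 1)) * (derivative (W h (G ^ 2 * F2 v))).eval 1 =
      if m ∣ n then (if n / m % 4 = 1 then
        p0 ω m * (4 * m) * ρ (4 * m) ((n / m - 1) / 4) else 0) else 0 := by
    intro m j hm0 hmj
    rw [Finset.sum_comm]
    have key : ∀ v ∈ cII K m, ∑ G ∈ mon K j,
        ω (v.2.coeff (m - 1)) * (derivative (W h (G ^ 2 * F2 v))).eval 1 =
        if Irreducible (F2 v) then ω (v.2.coeff (m - 1)) *
          (if m ∣ n then (if n / m % 4 = 1 then
            ((4 * m : ℕ) : ℝ) * ρ (4 * m) ((n / m - 1) / 4) else 0) else 0) else 0 := by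
      intro v hv
      rw [← Finset.mul_sum]
      unfold cII at hv
      rw [Finset.mem_filter, Finset.mem_product] at hv
      obtain ⟨⟨hv1, hv2⟩, hv3⟩ := hv
      have hF := F2_mon hv1 hv2
      have hsq := ((hP K κ hκ m v hv3).2 hv1 hv2).1
      have hF1 : F2 v ≠ 1 := by
        intro h0
        have h1 := hF.2
        rw [h0, natDegree_one] at h1
        omega
      have hEV := fun G (hG : G.Monic) => (hE K h hHV).2 G (F2 v) hG hF.1 hsq hF1
      by_cases hirr : Irreducible (F2 v)
      · rw [if_pos hirr]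
        refine congrArg (ω (v.2.coeff (m - 1)) * ·) ?_
        by_cases hd : m ∣ n ∧ n / m % 4 = 1
        · rw [if_pos hd.1, if_pos hd.2]
          have hj2 := arith2 hm0 hmj hd.1 hd.2
          set a0 := (n / m - 1) / 4 with ha0
          have hmem : (F2 v) ^ a0 ∈ mon K j := by
            rw [mem_mon]
            refine ⟨hF.1.pow _, ?_⟩
            rw [hF.1.natDegree_pow, hF.2, hj2, mul_comm]
          rw [Finset.sum_eq_single_of_mem _ hmem]
          · rw [(hEV _ (hF.1.pow _)).1 a0 hirr rfl, hρ, hF.2]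
          · intro G hG hne
            rw [mem_mon] at hG
            refine (hEV G hG.1).2 (Or.inr fun a ha => hne ?_)
            have h1 : a * (4 * m) = (4 * m) * a0 := by
              rw [← hj2, ← hG.2, ha, hF.1.natDegree_pow, hF.2]
            have h2 : a = a0 := by
              have h3 : (4 * m) * a = (4 * m) * a0 := by rw [mul_comm, h1]
              exact Nat.eq_of_mul_eq_mul_left (by omega) h3
            rw [ha, h2]
        · have h0 : (if m ∣ n then (if n / m % 4 = 1 then
              ((4 * m : ℕ) : ℝ) * ρ (4 * m) ((n / m - 1) / 4) else 0) else 0) = 0 := by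
            by_cases h1 : m ∣ n
            · rw [if_pos h1, if_neg fun h2 => hd ⟨h1, h2⟩]
            · rw [if_neg h1]
          rw [h0]
          refine Finset.sum_eq_zero fun G hG => ?_
          rw [mem_mon] at hG
          refine (hEV G hG.1).2 (Or.inr fun a ha => hd ?_)
          have h1 : j = a * (4 * m) := by
            rw [← hG.2, ha, hF.1.natDegree_pow, hF.2]
          have h2 := arith2' (m := m) (a := a) (n := n) hm0 (by
            rw [← hmj, h1]
            ring)
          exact ⟨h2.1, h2.2.1⟩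
      · rw [if_neg hirr]
        have h0 : ∑ G ∈ mon K j, (derivative (W h (G ^ 2 * F2 v))).eval 1 = 0 := by
          refine Finset.sum_eq_zero fun G hG => ?_
          rw [mem_mon] at hG
          exact (hEV G hG.1).2 (Or.inl hirr)
        rw [h0, mul_zero]
    rw [Finset.sum_congr rfl key, ← Finset.sum_filter, ← Finset.sum_mul, ← p0_eq]
    by_cases h1 : m ∣ n
    · rw [if_pos h1, if_pos h1]
      by_cases h2 : n / m % 4 = 1
      · rw [if_pos h2, if_pos h2]
        push_cast
        ring
      · rw [if_neg h2, if_neg h2, mul_zero]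
    · rw [if_neg h1, if_neg h1, mul_zero]
  have step3 : ∑ G ∈ mon K n, ∑ v ∈ cII K 0,
        ω (v.2.coeff (0 - 1)) * (derivative (W h (G ^ 2 * F2 v))).eval 1 =
      ω 0 * ∑ r ∈ n.divisors, (irr K r : ℝ) * r * σ r (n / r) := by
    have h0 : cII K 0 = {((1 : K[X]), (0 : K[X]))} := by
      ext v
      rw [cII_zero, Finset.mem_singleton]
    have h1 : F2 ((1 : K[X]), (0 : K[X])) = 1 := by
      unfold F2
      simp
    rw [← sum_pp (fun G => (derivative (W h (G ^ 2))).eval 1) σ n hn, Finset.mul_sum]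
    · refine Finset.sum_congr rfl fun G _ => ?_
      rw [h0, Finset.sum_singleton, h1, mul_one, coeff_zero]
    · intro P a hPm hPi ha
      rw [(hE2 K h hHV).1 P a hPm hPi ha, hσ]
    · exact (hE2 K h hHV).2
  have step4 : ∑ j ∈ Finset.range (n + 1), ∑ G ∈ mon K j, ∑ v ∈ cII K (n - j),
        ω (v.2.coeff (n - j - 1)) * (derivative (W h (G ^ 2 * F2 v))).eval 1 =
      ∑ m ∈ Finset.range (n + 1), ∑ G ∈ mon K (n - m), ∑ v ∈ cII K m,
        ω (v.2.coeff (m - 1)) * (derivative (W h (G ^ 2 * F2 v))).eval 1 := by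
    rw [← Finset.sum_flip (fun m => ∑ G ∈ mon K (n - m), ∑ v ∈ cII K m,
        ω (v.2.coeff (m - 1)) * (derivative (W h (G ^ 2 * F2 v))).eval 1)]
    refine Finset.sum_congr rfl fun j hj => ?_
    rw [Finset.mem_range] at hj
    have h1 : n - (n - j) = j := by omega
    rw [h1]
  have step5 : ∀ t : ℕ → ℝ, ∑ m ∈ n.divisors, t m =
      ∑ m ∈ Finset.range n, if (m + 1) ∣ n then t (m + 1) else 0 := by
    intro t
    have h1 : n.divisors = (Finset.Ico 1 (n + 1)).filter (fun d => d ∣ n) := by
      ext d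
      rw [Nat.mem_divisors, Finset.mem_filter, Finset.mem_Ico]
      constructor
      · rintro ⟨h2, _⟩
        exact ⟨⟨Nat.pos_of_dvd_of_pos h2 hn, Nat.lt_succ_of_le (Nat.le_of_dvd hn h2)⟩, h2⟩
      · rintro ⟨_, h2⟩
        exact ⟨h2, by omega⟩
    rw [h1, Finset.sum_filter, Finset.sum_Ico_eq_sum_range, Nat.add_sub_cancel]
    refine Finset.sum_congr rfl fun m _ => ?_
    rw [add_comm 1 m]
  rw [step1, step4, Finset.sum_range_succ', Nat.sub_zero, step3,
    step5 (fun m => if n / m % 4 = 1 then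
      p0 ω m * (4 * m) * ρ (4 * m) ((n / m - 1) / 4) else 0)]
  refine congrArg (· + ω 0 * ∑ r ∈ n.divisors, (irr K r : ℝ) * r * σ r (n / r)) ?_
  refine Finset.sum_congr rfl fun m hm => ?_
  rw [Finset.mem_range] at hm
  exact step2 (m + 1) (n - (m + 1)) (by omega) (by omega)

end Pool.Agent.H972.EX
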